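import Pool.Agent.R781.CubeAQ
import Pool.Agent.R781.VS.Class
import Pool.Agent.Results.MP_9d0d86_gt.CubicalFactorBound

/-!
# The Singer-Hopf inequality for cubical manifolds whose vertex links are built by vertex splitting

A finite cubical complex, given by its poset of cubes, all of whose vertex links are flag homology spheres, is a
closed aspherical homology manifold (its piecewise Euclidean metric is nonpositively curved).  We prove the
Singer-Hopf inequality when the link of each vertex is in the class `AR (2 m)` or has small join factors.

The class `AR n` is the closure, under vertex splitting and the operations listed in its definition (full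
subcomplexes, deletion of edges and vertices, joins, gluings, ...), of the class `AQ n`, which contains the
barycentric subdivisions of all triangulated `(n-1)`-spheres.  Vertex splitting is the inverse of the contraction of
an edge which is not contained in an induced 4-cycle.
-/

set_option autoImplicit false

namespace Pool.Agent.Results.MP_9d0d86_gt.CubicalSplitLinks

open Pool.Agent.W497.FS Pool.Agent.W497.CC Pool.Agent.W907.SG Pool.Agent.TH652.Above Pool.Agent.R781.CubeAQ
  Pool.Agent.R781.VS
open Pool.Agent.Results.MP_9d0d86_gt.CubicalFactorBound (SmallFactors HasNice)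

/-- The link of the vertex `v` is the flag complex of a finite graph of the class `AR (2 m)`, and a real homology
manifold with the real homology of the `(2 m - 1)`-sphere. -/
def ARLink (m : ℕ) {P : Type} [PartialOrder P] (v : P) : Prop :=
  ∃ (V : Type) (_ : Fintype V) (_ : LinearOrder V) (G : SimpleGraph V),
    IsGraphLink v G ∧ HSph (2 * m) G ∧ AR (2 * m) G

/-- The link of the vertex `v` is a flag homology sphere over `k` of dimension `2 m - 1` with small join factors, or
with nice vertices in the links of its faces of even size. -/
def SmallLink (k : Type) [Field k] (m : ℕ) {P : Type} [PartialOrder P] (v : P) : Prop :=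
  ∃ (n : ℕ) (S : Finset (Finset (Fin n))), IsLink v S ∧ IsFlagSphere k (2 * m) S ∧ (SmallFactors m S ∨ HasNice m S)

/-- The Singer-Hopf inequality for nonpositively curved cubical manifolds of dimension `2 m` each of whose vertex
links is in the class `AR (2 m)` or has small join factors. -/
theorem result (k : Type) [Field k] (m : ℕ) (P : Type) [Fintype P] [PartialOrder P] (dim : P → ℕ)
    (hP : IsCubical P dim) (hL : ∀ v : P, dim v = 0 → ARLink m v ∨ SmallLink k m v) :
    0 ≤ (-1) ^ m * chi P dim := by
  classical
  have h1 : ∀ v : P, ∃ p : Σ n : ℕ, Finset (Finset (Fin n)), dim v = 0 →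
      IsLink v p.2 ∧ (∀ F ∈ p.2, ∀ F' : Finset (Fin p.1), F' ⊆ F → F' ∈ p.2) ∧ 0 ≤ (-1 : ℚ) ^ m * omega p.2 := by
    intro v
    by_cases hv : dim v = 0
    · rcases hL v hv with ⟨V, _, _, G, hG, hS, hA⟩ | ⟨n, S, hlk, hS, hc⟩
      · refine ⟨⟨Fintype.card V, fam (Fintype.equivFin V) G⟩, fun _ => ⟨isLink_fam _ hG, fam_down _ _, ?_⟩⟩
        rw [omega_fam]
        exact charney_davis_AR hS hA
      · refine ⟨⟨n, S⟩, fun _ => ⟨hlk, ?_, ?_⟩⟩
        · obtain ⟨r, hr⟩ := hS
          exact hr.1
        · rcases hc with (hc | hc) | hc
          · rw [_root_.Y365.FS.cd_odd hS hc, mul_zero]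
          · exact _root_.Y365.FS.cd_factors hS fun C hC => Or.inr (hc C hC)
          · exact cd_four hS hc
    · exact ⟨⟨0, ∅⟩, fun h => absurd h hv⟩
  choose p hp using h1
  have h2 := chi_eq hP (fun v => (p v).1) (fun v => (p v).2) (fun v hv => (hp v hv).1)
    (fun v hv => (hp v hv).2.1)
  have h3 : (0 : ℚ) ≤ (-1) ^ m * ((chi P dim : ℤ) : ℚ) := by
    rw [h2, Finset.mul_sum]
    exact Finset.sum_nonneg fun v hv => (hp v (Finset.mem_filter.mp hv).2).2.2
  exact_mod_cast h3

end Pool.Agent.Results.MP_9d0d86_gt.CubicalSplitLinks
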