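import Pool.Agent.R775.PH.Cls

/-!
# The Singer–Hopf sign for curvature tensors which are pure on a hyperplane

`PureLe m δ R` (definition in `Pool/Agent/R775/PH/Geo.lean`): there are `2 m - 1` orthonormal vectors
`u i` of the `2 m`-dimensional space such that `R (u i) (u j) (u k) (u l) = 0` unless
`{i, j} = {k, l}` (the curvature operator is diagonal on the bivectors of the hyperplane spanned by
the `u i`), and the sectional curvatures of the planes which contain one of the vectors `u i` are at
most `-δ`. The components with one index in the direction `T` orthogonal to the hyperplane are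
arbitrary. Examples, if all sectional curvatures are at most `-δ`: (1) every curvature tensor in
dimension four, so that the theorem contains that of Milnor and Chern; (2) `WarpHyp`: hypersurfaces of
warped products `I ×_f Q` with `Q` of constant curvature, for instance of `H^n × ℝ` and `S^n × ℝ`;
(3) `GaussDiag`: all Gauss equations with symmetric forms (of any number, in spaces of any signature)
which are simultaneously diagonal on a hyperplane, for instance hypersurfaces of conformally flat
manifolds such that the second fundamental form and the Schouten tensor commute on a hyperplane.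

Proof. The integrand does not see the components `R (T, u i, T, u j)`, `i ≠ j`, and the components
`R (T, u i, u j, u k)` (distinct indices) only increase it. Without these components `-R` is a sum of
squares `k_ij ((u i + s_ij T) ∧ (u j + s_ji T))²` and `(T ∧ u j)²`; the coefficients of the latter are
nonnegative because the Jacobi operator of `u j` is nonpositive.
-/

set_option autoImplicit false

namespace Pool.Agent.Results.MP_9d0d86_gt.PureHyperplane

open Pool.Agent.W666.GB Pool.Agent.W669.HD Pool.Agent.R775.PH MeasureTheory

/-- **The Singer–Hopf sign in every even dimension for curvature tensors which are pure on a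
hyperplane**: the pointwise inequality, the classes of examples, and the integrated forms. -/
theorem result :
    (∀ (m : ℕ) (V : Type) [NormedAddCommGroup V] [InnerProductSpace ℝ V]
      (e : OrthonormalBasis (Fin m × Bool) ℝ V) (R : V → V → V → V → ℝ) (δ : ℝ),
      AlgCurv R → 0 ≤ δ → PureLe m δ R → roundGB m δ ≤ (-1) ^ m * gbc e R) ∧
    (∀ (m : ℕ) (V : Type) [NormedAddCommGroup V] [InnerProductSpace ℝ V]
      (_ : OrthonormalBasis (Fin m × Bool) ℝ V) (R : V → V → V → V → ℝ) (δ : ℝ),
      AlgCurv R → (∀ x y, R x y x y ≤ -(δ * unitT x y x y)) →
      (m = 2 ∨ WarpHyp R ∨ GaussDiag m R) → PureLe m δ R) ∧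
    (∀ (m : ℕ) (M : Type) [MeasurableSpace M] (μ : Measure M) (K : CurvField m M) (δ : M → ℝ),
      (∀ p, 0 ≤ δ p ∧ PureLe m (δ p) (K.R p)) →
      0 ≤ (-1) ^ m * ∫ p, K.gb p ∂μ ∧
      (Integrable K.gb μ → Integrable (fun p => roundGB m (δ p)) μ →
        ∫ p, roundGB m (δ p) ∂μ ≤ (-1) ^ m * ∫ p, K.gb p ∂μ)) := by
  refine ⟨fun m V _ _ e R δ hR hδ h => pure_bound e hR hδ h, ?_, ?_⟩
  · intro m V _ _ e R δ hR hs h
    rcases h with h | h | h
    · subst h
      exact (four_pure e hR).le hs
    · exact (h.pure e).le hs
    · exact h.pure.le hs
  · intro m M _ μ K δ h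
    have h1 : ∀ p, roundGB m (δ p) ≤ (-1) ^ m * K.gb p := fun p =>
      pure_bound (K.e p) (K.curv p) (h p).1 (h p).2
    refine ⟨?_, ?_⟩
    · rw [← integral_const_mul]
      exact integral_nonneg fun p => (roundGB_nonneg (h p).1).trans (h1 p)
    · intro hi hj
      rw [← integral_const_mul]
      exact integral_mono hj (hi.const_mul _) h1

end Pool.Agent.Results.MP_9d0d86_gt.PureHyperplane
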