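import Pool.Agent.R770.QC.Fin

/-!
# The sign of the Gauss–Bonnet–Chern integrand on the dual of the cone of nonnegative complex
(and quaternionic) sectional curvature

`CSC Q z₀ z₁ w₀ w₁` is the complex sectional curvature `Q(z, w, z̄, w̄)` of an algebraic curvature
tensor `Q`, for `z = z₀ + i z₁` and `w = w₀ + i w₁`; `QSC Q p r` is the analogous quaternionic
quantity, which is `CSC Q` if `p`, `r` are complex.

`DualNegC e δ R` says: `R + δ` (times the tensor of constant curvature `1`) has nonpositive scalar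
product with every algebraic curvature tensor `Q` of nonnegative complex sectional curvature, and
`DualNeg e δ R` says this only for the `Q` of nonnegative quaternionic sectional curvature. So `-R-δ`
lies in the dual of a cone of curvature tensors.

`QPos S B₁ B₂ B₃`: `S + i B₁ + j B₂ + k B₃` is a positive semidefinite quaternionic Hermitian form
(`S` symmetric, `Bₐ` skew), and `EH S B₁ B₂ B₃` is the algebraic curvature tensor
`3 knSq S - skewCurv B₁ - skewCurv B₂ - skewCurv B₃`. `QCone δ R` says: `-R-δ` is a nonnegative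
combination of such tensors.

In every even dimension `2 m`:
(1) under either condition, `(-1)^m` times the Gauss–Bonnet–Chern integrand of `R` is at least its
value for constant curvature `-δ`;
(2), (3) the integrated forms, for fields of curvature tensors;
(4) `DualNegC` implies `DualNeg`;
(5) if `I`, `J`, `K` are a quaternionic structure by skew endomorphisms, with forms
`⟨I x, y⟩`, `⟨J x, y⟩`, `⟨K x, y⟩`, then `R = skewCurv I + skewCurv J + skewCurv K - (δ + 3)`
satisfies `QCone δ R`;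
(6) so does `R = ∑ skewCurv Aₐ - (δ + 3 ∑ lₐ²)` for any number of skew forms with `|Aₐ| ≤ lₐ`.
-/

set_option autoImplicit false

namespace Pool.Agent.Results.MP_9d0d86_gt.QuaternionicCone

open Pool.Agent.W666.GB Pool.Agent.W669.HD Pool.Agent.Y195.HF Pool.Agent.R770.NS
  Pool.Agent.R770.QC

theorem result :
    (∀ (m : ℕ) (V : Type) [NormedAddCommGroup V] [InnerProductSpace ℝ V]
      (e : OrthonormalBasis (Fin m × Bool) ℝ V) (R : V → V → V → V → ℝ) (δ : ℝ),
      AlgCurv R → 0 ≤ δ → (DualNeg e δ R ∨ QCone δ R) → roundGB m δ ≤ (-1) ^ m * gbc e R) ∧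
    (∀ (m : ℕ) (M : Type) [MeasurableSpace M] (μ : MeasureTheory.Measure M) (K : CurvField m M),
      (∀ p, DualNeg (K.e p) 0 (K.R p) ∨ QCone 0 (K.R p)) → 0 ≤ (-1) ^ m * ∫ p, K.gb p ∂μ) ∧
    (∀ (m : ℕ) (M : Type) [MeasurableSpace M] (μ : MeasureTheory.Measure M)
      [MeasureTheory.IsFiniteMeasure μ] (K : CurvField m M) (δ : ℝ),
      MeasureTheory.Integrable K.gb μ → 0 ≤ δ →
      (∀ p, DualNeg (K.e p) δ (K.R p) ∨ QCone δ (K.R p)) →
        roundGB m δ * μ.real Set.univ ≤ (-1) ^ m * ∫ p, K.gb p ∂μ) ∧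
    (∀ (m : ℕ) (V : Type) [NormedAddCommGroup V] [InnerProductSpace ℝ V]
      (e : OrthonormalBasis (Fin m × Bool) ℝ V) (R : V → V → V → V → ℝ) (δ : ℝ),
      DualNegC e δ R → DualNeg e δ R) ∧
    (∀ (V : Type) [NormedAddCommGroup V] [InnerProductSpace ℝ V] (I J K : V →ₗ[ℝ] V) (δ : ℝ),
      (∀ x y, inner ℝ (I x) y = -(inner ℝ x (I y) : ℝ)) →
      (∀ x y, inner ℝ (J x) y = -(inner ℝ x (J y) : ℝ)) →
      (∀ x y, inner ℝ (K x) y = -(inner ℝ x (K y) : ℝ)) →
      (∀ x, I (I x) = -x) → (∀ x, J (J x) = -x) → (∀ x, I (J x) = K x) →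
      QCone δ (fun x y z w : V => skewCurv (fo I) x y z w + skewCurv (fo J) x y z w +
        skewCurv (fo K) x y z w - (δ + 3) * unitT x y z w)) ∧
    (∀ (V : Type) [NormedAddCommGroup V] [InnerProductSpace ℝ V] (n : ℕ) (A : Fin n → V → V → ℝ)
      (l : Fin n → ℝ) (δ : ℝ), (∀ a, SkewForm (A a)) → (∀ a, 0 ≤ l a) →
      (∀ a x y, A a x y ≤ l a * (‖x‖ * ‖y‖)) →
      QCone δ (fun x y z w : V => ∑ a, skewCurv (A a) x y z w -
        (δ + 3 * ∑ a, l a ^ 2) * unitT x y z w)) :=
  ⟨fun _ _ _ _ e _ _ hR hδ h => both_bound e hR hδ h,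
    fun _ _ _ μ K h => field_both μ K h,
    fun _ _ _ μ _ K _ hi hδ h => field_both' μ K hi hδ h,
    fun _ _ _ _ _ _ _ h => h.dualNeg,
    fun _ _ _ _ _ _ _ hI hJ hK hI2 hJ2 hIJ => hyper hI hJ hK hI2 hJ2 hIJ,
    fun _ _ _ _ _ _ _ hA hl hAl => many hA hl hAl⟩

end Pool.Agent.Results.MP_9d0d86_gt.QuaternionicCone
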