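import Pool.Agent.R65.HP.Fin

/-!
# The sign `(-1) ^ m` for strongly nonpositive curvature with a pinched curvature operator

Let `R` be an algebraic curvature tensor on a Euclidean space of dimension `2 m` and let `F` be one
with nonnegative curvature operator (for instance `F = κ R₀`, of constant curvature `κ ≥ 0`).
Suppose

* `(m - 1)` times the curvature operator of `R` is at most the one of `F`, and
* `R + F` is strongly nonpositive: for some `4`-form `ω` the symmetric form `R + F + ω` is
  nonpositive on all bivectors.

Then `(-1) ^ m` times the Gauss-Bonnet-Chern integrand of `R` is at least the integrand of `F`, which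
is nonnegative. No lower bound of the curvature of `R` and no bound on the size of the `4`-form is
assumed. If the curvature operator of `R` is nonpositive, the first hypothesis always holds, so this
contains the theorem for nonpositive curvature operators (`F = 0`).

In particular (`F = κ R₀`) the sign holds with the sharp bound of constant curvature `-κ` if
`R + κ` is strongly nonpositive and the eigenvalues of the curvature operator are at most
`κ / (m - 1)`, and for `-R = N + κ R₀ + ∑ skewCurv (A s)`, where `N` is nonnegative on all bivectors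
and the `A s` are any number of skew forms with `(m - 1) ∑ |A s|² ≤ m κ`. In dimension six the last
bound cannot be omitted: for three skew forms and some `κ > 0` the tensor
`-κ R₀ - ∑ skewCurv (A s)` has the wrong sign.

The proof (`Pool/Agent/R65/HP/`): put `P = F - (m - 1) R` and let `t_k` be the mixed integrand of `k`
factors `F` and `m - k` factors `P`, so that `(m - 1) ^ m` times the integrand of `-R` is
`∑ (-1) ^ k (m choose k) t_k`. The difference `t_k - m t_(k + 1)` is `m - 1` times the mixed integrand
of `-(R + F)` and `m - 1` tensors with the Bianchi identity and nonnegative curvature operator; adding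
the `4`-form does not change it, so it is nonnegative, and summation by parts gives the bound.
-/

namespace Pool.Agent.Results.MP_9d0d86_gt.StronglyNonpositivePinched

open MeasureTheory
open Pool.Agent.R65.HP
open Pool.Agent.W666.GB (AlgCurv gbc roundGB CurvField)
open Pool.Agent.W669.HD (unitT E6)
open Pool.Agent.Y195.HF (SkewForm skewCurv)

/-- The sign of the Gauss-Bonnet-Chern integrand for strongly nonpositive curvature with a pinched
curvature operator. -/
theorem result :
    -- comparison with a tensor `F` whose curvature operator is nonnegative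
    (∀ (m : ℕ) (V : Type) [NormedAddCommGroup V] [InnerProductSpace ℝ V]
      (e : OrthonormalBasis (Fin m × Bool) ℝ V) (R F : V → V → V → V → ℝ),
      AlgCurv R → Compares m F R → gbc e F ≤ (-1) ^ m * gbc e R ∧ 0 ≤ gbc e F) ∧
    -- comparison with the constant curvature `-κ`
    (∀ (m : ℕ) (V : Type) [NormedAddCommGroup V] [InnerProductSpace ℝ V]
      (e : OrthonormalBasis (Fin m × Bool) ℝ V) (R : V → V → V → V → ℝ) (κ : ℝ),
      AlgCurv R → 0 ≤ κ → Pinched m κ R → roundGB m κ ≤ (-1) ^ m * gbc e R) ∧
    -- any number of skew forms
    (∀ (m : ℕ) (V : Type) [NormedAddCommGroup V] [InnerProductSpace ℝ V]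
      (e : OrthonormalBasis (Fin m × Bool) ℝ V) (R : V → V → V → V → ℝ) (κ : ℝ),
      AlgCurv R → 1 ≤ m → 0 ≤ κ → ManySkew m κ R → roundGB m κ ≤ (-1) ^ m * gbc e R) ∧
    -- in dimension six the bound of the skew forms cannot be omitted
    (∃ (κ : ℝ) (A : Fin 3 → E6 → E6 → ℝ), 0 < κ ∧ (∀ s, SkewForm (A s)) ∧
      AlgCurv (fun x y z w : E6 => -(κ * unitT x y z w) - ∑ s, skewCurv (A s) x y z w) ∧
      ∀ e : OrthonormalBasis (Fin 3 × Bool) ℝ E6,
        (-1) ^ 3 *
          gbc e (fun x y z w => -(κ * unitT x y z w) - ∑ s, skewCurv (A s) x y z w) < 0) ∧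
    -- the integrated forms
    (∀ (m : ℕ) (M : Type) [MeasurableSpace M] (μ : Measure M) (K : CurvField m M),
      (∀ p, ∃ F, Compares m F (K.R p)) → 0 ≤ (-1) ^ m * ∫ p, K.gb p ∂μ) ∧
    (∀ (m : ℕ) (M : Type) [MeasurableSpace M] (μ : Measure M) [IsFiniteMeasure μ]
      (K : CurvField m M) (κ : ℝ), Integrable K.gb μ → 0 ≤ κ → (∀ p, Pinched m κ (K.R p)) →
        roundGB m κ * μ.real Set.univ ≤ (-1) ^ m * ∫ p, K.gb p ∂μ) :=
  ⟨fun _ _ _ _ e _ _ hR h => compares e hR h,
    fun _ _ _ _ e _ _ hR hκ h => pinched_bound e hR hκ h,
    fun _ _ _ _ e _ _ hR hm hκ h => many_bound e hR hm hκ h,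
    bound_needed,
    fun _ _ _ μ K h => field_compares μ K h,
    fun _ _ _ μ _ K _ hi hκ h => field_pinched μ K hi hκ h⟩

end Pool.Agent.Results.MP_9d0d86_gt.StronglyNonpositivePinched
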